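import Pool.Agent.K1H27.BN.Stm

/-! The short lemmas LOCV, NUC, RSC of project BN (helper67, for helper27). -/

set_option autoImplicit false

namespace Pool.Agent.K1H67.BN

open MeasureTheory Set Metric Filter Topology
open scoped ENNReal NNReal
open Pool.Agent.R277.SP (LocV ad ev pow_of_rec compact_of_rank ad_apply2 ev_apply)
open Pool.Agent.K1H27.BN

theorem t_LOCV : S_LOCV := by
  intro E _ _ _ T hL c hc ε hε
  by_cases hinj : ∃ x : E, x ≠ 0 ∧ T x = c • x
  · obtain ⟨x, hx0, hx⟩ := hinj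
    refine ⟨x, ‖x‖, hx0, fun n => ?_⟩
    have h5 : (T - c • (1 : E →L[ℂ] E)) x = 0 := by
      show T x - c • x = 0
      rw [hx, sub_self]
    cases n with
    | zero => simp
    | succ n =>
      have h6 : ((T - c • (1 : E →L[ℂ] E)) ^ (n + 1)) x = 0 := by
        rw [pow_succ]
        show ((T - c • (1 : E →L[ℂ] E)) ^ n) ((T - c • (1 : E →L[ℂ] E)) x) = 0
        rw [h5, map_zero]
      rw [h6, norm_zero]
      positivity
  · push Not at hinj
    have hI : Function.Injective (T - c • (1 : E →L[ℂ] E)) := by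
      rw [injective_iff_map_eq_zero]
      intro x hx
      by_contra hne
      refine hinj x hne ?_
      have : T x - c • x = 0 := hx
      exact sub_eq_zero.1 this
    have hnu : ¬ IsUnit (T - c • (1 : E →L[ℂ] E)) := by
      intro hu
      rw [spectrum.mem_iff] at hc
      apply hc
      have h1 : algebraMap ℂ (E →L[ℂ] E) c - T = -(T - c • (1 : E →L[ℂ] E)) := by
        rw [Algebra.algebraMap_eq_smul_one]
        abel
      rw [h1]
      exact hu.neg
    have hS : ¬ Function.Surjective (T - c • (1 : E →L[ℂ] E)) := fun hs =>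
      hnu (ContinuousLinearMap.isUnit_iff_bijective.2 ⟨hI, hs⟩)
    unfold Function.Surjective at hS
    push Not at hS
    obtain ⟨x, hx⟩ := hS
    obtain ⟨X, κ, C, hκ, hX, h0, hrec⟩ := hL x c ε hε
    refine ⟨X 1, C * ε, ?_, fun n => ?_⟩
    · intro h1
      refine hx (-(κ⁻¹ • X 0)) ?_
      rw [map_neg, map_smul]
      have h2 : (T - c • (1 : E →L[ℂ] E)) (X 0) = - (κ • x) := by
        show T (X 0) - c • X 0 = _
        rw [h0, h1, zero_sub]
      rw [h2, smul_neg, neg_neg, smul_smul, inv_mul_cancel₀ hκ, one_smul]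
    · have h1 := pow_of_rec (T := T) (c := c) (X := fun k => X (k + 1)) hrec n
      have h2 : ((T - c • (1 : E →L[ℂ] E)) ^ n) (X 1) = X (n + 1) := h1
      rw [h2]
      calc ‖X (n + 1)‖ ≤ C * ε ^ (n + 1) := hX (n + 1)
        _ = C * ε * ε ^ n := by ring

theorem pow_sum (a : ℕ → ℝ) (ha : ∀ j, 0 ≤ a j) {q r : ℝ} (hq : 0 < q) (hr : q ≤ r)
    (h : Summable fun j => a j ^ q) : Summable fun j => a j ^ r := by
  refine Summable.of_norm_bounded_eventually_nat h ?_
  have h1 : ∀ᶠ j in atTop, a j ^ q ≤ 1 := by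
    have := h.tendsto_atTop_zero
    exact (this.eventually (gt_mem_nhds zero_lt_one)).mono fun j hj => hj.le
  filter_upwards [h1] with j hj
  have h2 : a j ≤ 1 := by
    by_contra hc
    push Not at hc
    have := Real.one_lt_rpow hc hq
    linarith
  rw [Real.norm_of_nonneg (Real.rpow_nonneg (ha j) _)]
  rcases eq_or_lt_of_le (ha j) with h0 | h0
  · rw [← h0, Real.zero_rpow (by linarith), Real.zero_rpow (by linarith)]
  · exact Real.rpow_le_rpow_of_exponent_ge h0 h2 hr

theorem t_NUC : S_NUC := by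
  intro E _ _ _ p hp1 hp2 K f x hR
  have hf2 := pow_sum (fun j => ‖f j‖) (fun j => norm_nonneg _) (by linarith : (0:ℝ) < p) hp2.le hR.sf
  have hx2 := pow_sum (fun j => ‖x j‖) (fun j => norm_nonneg _) (by linarith : (0:ℝ) < p) hp2.le hR.sx
  have hfx : Summable fun j => ‖f j‖ * ‖x j‖ := by
    refine Summable.of_nonneg_of_le (fun j => by positivity) (fun j => ?_) (hf2.add hx2)
    show ‖f j‖ * ‖x j‖ ≤ ‖f j‖ ^ (2:ℝ) + ‖x j‖ ^ (2:ℝ)
    rw [Real.rpow_two, Real.rpow_two]
    nlinarith [sq_nonneg (‖f j‖ - ‖x j‖), norm_nonneg (f j), norm_nonneg (x j),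
      mul_nonneg (norm_nonneg (f j)) (norm_nonneg (x j))]
  refine ⟨?_, ⟨?_, hR.sf, ?_⟩⟩
  · have hs : Summable fun j => ((f j).smulRight (x j) : E →L[ℂ] E) := by
      refine Summable.of_norm_bounded hfx fun j => ?_
      rw [ContinuousLinearMap.norm_smulRight_apply]
    have hK : HasSum (fun j => ((f j).smulRight (x j) : E →L[ℂ] E)) K := by
      obtain ⟨S, hS⟩ := hs
      have : S = K := by
        ext y
        have h1 : HasSum (fun j => f j y • x j) (S y) := by
          have := hS.mapL (ContinuousLinearMap.apply ℂ E y)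
          simpa using this
        exact h1.unique (hR.sum y)
      rwa [← this]
    have hcl : IsClosed {A : E →L[ℂ] E | IsCompactOperator A} := isClosed_setOfPred_isCompactOperator
    refine hcl.mem_of_tendsto hK (Filter.Eventually.of_forall fun s => ?_)
    have h1 : (∑ j ∈ s, ((f j).smulRight (x j) : E →L[ℂ] E)) ∈
        compactOperator (RingHom.id ℂ) E E := by
      refine Submodule.sum_mem _ fun j _ => ?_
      show IsCompactOperator ((f j).smulRight (x j) : E →L[ℂ] E)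
      exact compact_of_rank (x j) fun y => ⟨f j y, rfl⟩
    exact h1
  · refine Summable.of_nonneg_of_le (fun j => by positivity) (fun j => ?_) hR.sx
    refine Real.rpow_le_rpow (norm_nonneg _) ?_ (by linarith)
    refine ContinuousLinearMap.opNorm_le_bound _ (norm_nonneg _) fun y => ?_
    rw [ev_apply, mul_comm]
    exact y.le_opNorm _
  · intro y
    have hs : Summable fun j => (ev (x j)) y • f j := by
      refine Summable.of_norm_bounded (hfx.mul_left ‖y‖) fun j => ?_
      rw [norm_smul, ev_apply]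
      calc ‖y (x j)‖ * ‖f j‖ ≤ (‖y‖ * ‖x j‖) * ‖f j‖ := by gcongr; exact y.le_opNorm _
        _ = ‖y‖ * (‖f j‖ * ‖x j‖) := by ring
    obtain ⟨S, hS⟩ := hs
    have : S = ad K y := by
      ext z
      have h1 : HasSum (fun j => y (x j) * f j z) (S z) := by
        have := hS.mapL (ContinuousLinearMap.apply ℂ ℂ z)
        simpa [ev_apply] using this
      have h2 : HasSum (fun j => y (f j z • x j)) (y (K z)) := (hR.sum z).mapL y
      have h3 : (fun j => y (f j z • x j)) = fun j => y (x j) * f j z := by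
        funext j
        rw [map_smul, smul_eq_mul, mul_comm]
      rw [h3] at h2
      rw [ad_apply2]
      exact h1.unique h2
    rwa [← this]

theorem t_RSC : S_RSC := by
  intro E _ _ q hq0 hq1 K f x hs hK
  have hpq : q ≤ max (2 * q) (3 / 2) / 2 := by
    have := le_max_left (2 * q) (3 / 2 : ℝ)
    linarith
  have hp1 : 1 < max (2 * q) (3 / 2 : ℝ) := lt_of_lt_of_le (by norm_num) (le_max_right _ _)
  have hp2 : max (2 * q) (3 / 2 : ℝ) < 2 := max_lt (by linarith) (by norm_num)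
  set p : ℝ := max (2 * q) (3 / 2) with hp
  have hab := pow_sum (fun j => ‖f j‖ * ‖x j‖) (fun j => by positivity) hq0 hpq hs
  have hnf : ∀ j, ‖((Real.sqrt (‖x j‖ / ‖f j‖) : ℝ) : ℂ) • f j‖ = Real.sqrt (‖f j‖ * ‖x j‖) := by
    intro j
    rw [norm_smul, Complex.norm_real, Real.norm_of_nonneg (Real.sqrt_nonneg _)]
    rcases eq_or_ne ‖f j‖ 0 with h | h
    · rw [h]; simp
    · have h1 : 0 < ‖f j‖ := lt_of_le_of_ne (norm_nonneg _) (Ne.symm h)
      conv_lhs => rw [← Real.sqrt_sq (norm_nonneg (f j))]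
      rw [Real.sqrt_sq (norm_nonneg (f j))]
      have h2 : Real.sqrt (‖f j‖ * ‖x j‖) = Real.sqrt (‖x j‖ / ‖f j‖ * ‖f j‖ ^ 2) := by
        congr 1
        field_simp
      rw [h2, Real.sqrt_mul' _ (sq_nonneg _), Real.sqrt_sq (norm_nonneg _)]
  have hnx : ∀ j, ‖((Real.sqrt (‖f j‖ / ‖x j‖) : ℝ) : ℂ) • x j‖ = Real.sqrt (‖f j‖ * ‖x j‖) := by
    intro j
    rw [norm_smul, Complex.norm_real, Real.norm_of_nonneg (Real.sqrt_nonneg _)]
    rcases eq_or_ne ‖x j‖ 0 with h | h
    · rw [h]; simp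
    · have h1 : 0 < ‖x j‖ := lt_of_le_of_ne (norm_nonneg _) (Ne.symm h)
      have h2 : Real.sqrt (‖f j‖ * ‖x j‖) = Real.sqrt (‖f j‖ / ‖x j‖ * ‖x j‖ ^ 2) := by
        congr 1
        field_simp
      rw [h2, Real.sqrt_mul' _ (sq_nonneg _), Real.sqrt_sq (norm_nonneg _)]
  have hsum : Summable fun j => Real.sqrt (‖f j‖ * ‖x j‖) ^ p := by
    refine hab.congr fun j => ?_
    rw [Real.sqrt_eq_rpow, ← Real.rpow_mul (by positivity)]
    congr 1
    ring
  refine ⟨p, fun j => ((Real.sqrt (‖x j‖ / ‖f j‖) : ℝ) : ℂ) • f j,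
    fun j => ((Real.sqrt (‖f j‖ / ‖x j‖) : ℝ) : ℂ) • x j, hp1, hp2, ⟨?_, ?_, ?_⟩⟩
  · simp only [hnf]
    exact hsum
  · simp only [hnx]
    exact hsum
  · intro y
    have h1 : (fun j => ((((Real.sqrt (‖x j‖ / ‖f j‖) : ℝ) : ℂ) • f j) y) •
        (((Real.sqrt (‖f j‖ / ‖x j‖) : ℝ) : ℂ) • x j)) = fun j => f j y • x j := by
      funext j
      rcases eq_or_ne (f j) 0 with h | h
      · simp [h]
      rcases eq_or_ne (x j) 0 with h' | h'
      · simp [h']
      have ha : 0 < ‖f j‖ := norm_pos_iff.2 h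
      have hb : 0 < ‖x j‖ := norm_pos_iff.2 h'
      have h2 : Real.sqrt (‖x j‖ / ‖f j‖) * Real.sqrt (‖f j‖ / ‖x j‖) = 1 := by
        rw [← Real.sqrt_mul (by positivity)]
        have : ‖x j‖ / ‖f j‖ * (‖f j‖ / ‖x j‖) = 1 := by field_simp
        rw [this, Real.sqrt_one]
      have h3 : ((((Real.sqrt (‖x j‖ / ‖f j‖) : ℝ) : ℂ) • f j) y) =
        ((Real.sqrt (‖x j‖ / ‖f j‖) : ℝ) : ℂ) * f j y := rfl
      rw [h3, smul_smul]
      congr 1
      calc ((Real.sqrt (‖x j‖ / ‖f j‖) : ℝ) : ℂ) * f j y * ((Real.sqrt (‖f j‖ / ‖x j‖) : ℝ) : ℂ)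
          = ((Real.sqrt (‖x j‖ / ‖f j‖) * Real.sqrt (‖f j‖ / ‖x j‖) : ℝ) : ℂ) * f j y := by
            push_cast; ring
        _ = f j y := by rw [h2]; simp
    rw [h1]
    exact hK y

end Pool.Agent.K1H67.BN
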